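import Pool.Agent.PFE.StmtsE2b

/-!
# Squad PFE, row HSY (helper91): the Hattori-Stallings rank over `K[y]`
-/

open scoped BigOperators

noncomputable section

namespace Pool.Agent.PFE.H91

open Pool.Agent.PFE
open Pool.Agent.PFC.B1 (FS)
open Polynomial (C coeff)

/-- The trace of a matrix which is idempotent modulo an ideal is killed by a derivation modulo the
ideal. -/
theorem der_trace {Q ι : Type} [CommRing Q] [Fintype ι] [DecidableEq ι] (I : Ideal Q) (v : Q →+ Q)
    (hv : ∀ a b, v (a * b) = v a * b + a * v b) (hI : ∀ a ∈ I, v a ∈ I) (M : Matrix ι ι Q)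
    (hM : ∀ r t, (M * M) r t - M r t ∈ I) : v (∑ r, M r r) ∈ I := by
  set φ : Matrix ι ι Q →+* Matrix ι ι (Q ⧸ I) := (Ideal.Quotient.mk I).mapMatrix with hφ
  set N : Matrix ι ι Q := M.map v with hN
  have hA : φ M * φ M = φ M := by
    rw [← map_mul]
    ext r t
    simp only [hφ, RingHom.mapMatrix_apply, Matrix.map_apply]
    exact Ideal.Quotient.eq.2 (hM r t)
  have hB : φ N = φ N * φ M + φ M * φ N := by
    rw [← map_mul, ← map_mul, ← map_add]
    ext r t
    simp only [hφ, RingHom.mapMatrix_apply, Matrix.map_apply]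
    have h1 : v ((M * M) r t - M r t) ∈ I := hI _ (hM r t)
    have h2 : v ((M * M) r t) = (N * M + M * N) r t := by
      rw [Matrix.mul_apply, map_sum, Matrix.add_apply, Matrix.mul_apply, Matrix.mul_apply,
        ← Finset.sum_add_distrib]
      refine Finset.sum_congr rfl fun s _ => ?_
      rw [hv, hN, Matrix.map_apply, Matrix.map_apply]
    rw [map_sub, h2] at h1
    have h3 : N r t = v (M r t) := by rw [hN, Matrix.map_apply]
    rw [h3]
    exact (Ideal.Quotient.eq.2 h1).symm
  have hABA : φ M * φ N * φ M = 0 := by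
    have h1 : φ M * φ N * φ M = φ M * φ N * φ M + φ M * φ N * φ M := by
      calc φ M * φ N * φ M = φ M * (φ N * φ M + φ M * φ N) * φ M := by rw [← hB]
        _ = φ M * φ N * (φ M * φ M) + (φ M * φ M) * φ N * φ M := by noncomm_ring
        _ = _ := by rw [hA]
    exact left_eq_add.1 h1
  have htr : Matrix.trace (φ N) = 0 := by
    have h1 : Matrix.trace (φ M * φ N) = 0 := by
      calc Matrix.trace (φ M * φ N) = Matrix.trace ((φ M * φ M) * φ N) := by rw [hA]
        _ = Matrix.trace (φ M * (φ M * φ N)) := by rw [mul_assoc]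
        _ = Matrix.trace (φ M * φ N * φ M) := Matrix.trace_mul_comm _ _
        _ = 0 := by rw [hABA, Matrix.trace_zero]
    rw [hB, Matrix.trace_add, Matrix.trace_mul_comm, h1, add_zero]
  have h4 : Ideal.Quotient.mk I (v (∑ r, M r r)) = 0 := by
    rw [map_sum, map_sum, ← htr, Matrix.trace]
    rfl
  exact Ideal.Quotient.eq_zero_iff_mem.1 h4

section

variable {K A X J Ω Ω' : Type} [Field K] [Ring A] [Algebra K A] [Group X]
  [Fintype J] [Fintype Ω] [Fintype Ω'] {y : A} {l : ℕ} {χ : X →* K}
  (D : Yd K A X J Ω Ω' y l χ)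

/-- the polynomial of an element -/
def PP : A →ₗ[K] Polynomial K :=
  ∑ i ∈ Finset.range l, (Polynomial.monomial i) ∘ₗ D.d.lam ∘ₗ LinearMap.mulLeft K (y ^ (l - 1 - i))

theorem PP_apply (a : A) :
    PP D a = ∑ i ∈ Finset.range l, Polynomial.monomial i (D.d.lam (y ^ (l - 1 - i) * a)) := by
  rw [PP, LinearMap.sum_apply]
  rfl

theorem PP_coeff (a : A) (n : ℕ) (hn : n < l) :
    (PP D a).coeff n = D.d.lam (y ^ (l - 1 - n) * a) := by
  rw [PP_apply, Polynomial.finset_sum_coeff, Finset.sum_eq_single n]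
  · rw [Polynomial.coeff_monomial, if_pos rfl]
  · intro i _ hi
    rw [Polynomial.coeff_monomial, if_neg hi]
  · intro h
    exact absurd (Finset.mem_range.2 hn) h

theorem PP_pow (a : A) (k : ℕ) :
    (Polynomial.X : Polynomial K) ^ l ∣ PP D (a * y ^ k) - Polynomial.X ^ k * PP D a := by
  rw [Polynomial.X_pow_dvd_iff]
  intro n hn
  rw [Polynomial.coeff_sub, PP_coeff D _ n hn, Polynomial.coeff_X_pow_mul', ← mul_assoc, D.ds,
    ← mul_assoc, ← pow_add]
  split_ifs with h
  · rw [PP_coeff D _ (n - k) (by omega), show k + (l - 1 - n) = l - 1 - (n - k) by omega, sub_self]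
  · have h1 : y ^ (k + (l - 1 - n)) = 0 := by
      rw [show k + (l - 1 - n) = l + (k + (l - 1 - n) - l) by omega, pow_add, D.yl, zero_mul]
    rw [h1, zero_mul, map_zero, sub_zero]

theorem PP_pi (a b : A) :
    (Polynomial.X : Polynomial K) ^ l ∣ PP D (a * D.pi b) - PP D a * PP D b := by
  have h1 : PP D (a * D.pi b) = ∑ k ∈ Finset.range l,
      C (D.d.lam (y ^ (l - 1 - k) * b)) * PP D (a * y ^ k) := by
    rw [Yd.pi, Finset.mul_sum, map_sum]
    refine Finset.sum_congr rfl fun k _ => ?_
    rw [mul_smul_comm, map_smul, Polynomial.smul_eq_C_mul]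
  have h2 : PP D a * PP D b = ∑ k ∈ Finset.range l,
      C (D.d.lam (y ^ (l - 1 - k) * b)) * (Polynomial.X ^ k * PP D a) := by
    rw [PP_apply D b, Finset.mul_sum]
    refine Finset.sum_congr rfl fun k _ => ?_
    rw [← Polynomial.C_mul_X_pow_eq_monomial]
    ring
  rw [h1, h2, ← Finset.sum_sub_distrib]
  refine Finset.dvd_sum fun k _ => ?_
  rw [← mul_sub]
  exact Dvd.dvd.mul_left (PP_pow D a k) _

end

/-- the derivation `X d/dX` -/
def vd (K : Type) [Field K] : Polynomial K →+ Polynomial K where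
  toFun p := Polynomial.X * Polynomial.derivative p
  map_zero' := by simp
  map_add' p q := by rw [map_add, mul_add]

/-- HSY -/
theorem hsy (hRTK : RtkStmt) : HsyStmt := by
  intro K A X J Ω Ω' _ _ _ _ _ _ _ _ y l χ D e he
  classical
  obtain ⟨hr, -⟩ := hRTK K A X J Ω Ω' y l χ D
  set I : Ideal (Polynomial K) := Ideal.span {Polynomial.X ^ l} with hI
  have hmem : ∀ p, p ∈ I ↔ (Polynomial.X : Polynomial K) ^ l ∣ p := fun p =>
    Ideal.mem_span_singleton
  set M : Matrix (Ω ⊕ (Ω' × Fin l)) (Ω ⊕ (Ω' × Fin l)) (Polynomial K) :=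
    fun r s => PP D (D.e' r * e * D.e s) with hM
  have h1 := der_trace I (vd K) (by
      intro a b
      show Polynomial.X * Polynomial.derivative (a * b) =
        Polynomial.X * Polynomial.derivative a * b + a * (Polynomial.X * Polynomial.derivative b)
      rw [Polynomial.derivative_mul]
      ring) (by
      intro a ha
      rw [hmem] at ha ⊢
      obtain ⟨q, rfl⟩ := ha
      refine ⟨(l : Polynomial K) * q + Polynomial.X * Polynomial.derivative q, ?_⟩
      show Polynomial.X * Polynomial.derivative (Polynomial.X ^ l * q) = _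
      rw [Polynomial.derivative_mul, Polynomial.derivative_X_pow]
      obtain ⟨m, hm⟩ : ∃ m, l = m + 1 := ⟨l - 1, by have := D.hl; omega⟩
      rw [hm, Nat.add_sub_cancel, pow_succ, Polynomial.C_eq_natCast]
      ring) M (by
      intro r t
      rw [hmem, Matrix.mul_apply]
      have h2 : ∑ s, PP D (D.e' r * e * D.e s * D.pi (D.e' s * e * D.e t)) =
          PP D (D.e' r * e * D.e t) := by
        rw [← map_sum]
        congr 1
        have h3 := hr (e * D.e t)
        calc ∑ s, D.e' r * e * D.e s * D.pi (D.e' s * e * D.e t)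
            = D.e' r * e * ∑ s, D.e s * D.pi (D.e' s * (e * D.e t)) := by
              rw [Finset.mul_sum]
              refine Finset.sum_congr rfl fun s _ => ?_
              rw [mul_assoc (D.e' s) e (D.e t)]
              rw [mul_assoc (D.e' r * e) (D.e s)]
          _ = D.e' r * (e * e) * D.e t := by rw [h3]; noncomm_ring
          _ = D.e' r * e * D.e t := by rw [he]
      have h4 : ∑ s, M r s * M s t - M r t = -∑ s, (PP D (D.e' r * e * D.e s *
          D.pi (D.e' s * e * D.e t)) - PP D (D.e' r * e * D.e s) * PP D (D.e' s * e * D.e t)) := by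
        rw [Finset.sum_sub_distrib, h2]
        simp only [hM]
        ring
      rw [h4, dvd_neg]
      exact Finset.dvd_sum fun s _ => PP_pi D _ _)
  rw [hmem, Polynomial.X_pow_dvd_iff] at h1
  have hl := D.hl
  have h5 := h1 (l - 1) (by omega)
  have h6 : (vd K (∑ r, M r r)).coeff (l - 1) = (∑ r, M r r).coeff (l - 1) * ((l - 1 : ℕ) : K) := by
    show (Polynomial.X * Polynomial.derivative (∑ r, M r r)).coeff (l - 1) = _
    obtain ⟨m, hm⟩ : ∃ m, l - 1 = m + 1 := ⟨l - 2, by omega⟩
    rw [hm, Polynomial.coeff_X_mul, Polynomial.coeff_derivative]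
    push_cast
    rfl
  rw [h6] at h5
  have h7 : ((l - 1 : ℕ) : K) ≠ 0 := Nat.cast_ne_zero.2 (by omega)
  have h8 := (mul_eq_zero.1 h5).resolve_right h7
  rw [Polynomial.finset_sum_coeff] at h8
  rw [Yd.RT, Finset.sum_mul, map_sum, ← h8]
  refine Finset.sum_congr rfl fun r _ => ?_
  rw [hM]
  simp only
  rw [PP_coeff D _ (l - 1) (by omega), Nat.sub_self, pow_zero, one_mul, mul_one,
    D.ds (D.e' r * e) (D.e r), ← mul_assoc]

end Pool.Agent.PFE.H91
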